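import Pool.Agent.V5helper87.ZM.Stm

/-!
# Project ZM (helper87): SER
-/

set_option autoImplicit false

open scoped Matrix Pointwise

namespace Pool.Agent.V5helper6.ZM

open Pool.Agent.H919R4.ZS Pool.Agent.TH38.CX Pool.Agent.TH38.ZT
open Pool.Agent.V5helper87.ZM
open Filter Topology

theorem t_SER (h1 : S_PUS) (h2 : S_PUC) (h3 : S_SUP) : S_SER := by
  intro G _ C A B _ _ _ fr k l m n n' D' D E K K' hK hK' hch hg hg' σ η S c hS hσS hηS hηn hσn hcyc x T hT hxT hxD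
  obtain ⟨hsub, -⟩ := h1 G C A B fr m n K
  obtain ⟨-, hnK⟩ := h1 G C A B fr m n K
  obtain ⟨-, hnK'⟩ := h1 G C A B fr k n' K'
  obtain ⟨hmono, -, -⟩ := h3 G C A B fr
  -- the sequence
  let xs : ℕ → (Fin m → A) := fun i => Nat.rec x (fun _ y => y ᵥ* η) i
  have xs0 : xs 0 = x := rfl
  have xsS : ∀ i, xs (i + 1) = xs i ᵥ* η := fun i => rfl
  have hcy : ∀ i, xs i ᵥ* D'.map fr.α = 0 := by
    intro i
    induction i with
    | zero => exact hxD
    | succ i ih => rw [xsS]; exact (hcyc _ ih).2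
  set S₀ : Set G := T ∪ S ∪ {1} with hS₀
  have hS₀f : S₀.Finite := (hT.union hS).union (Set.finite_singleton 1)
  have h1S : (1 : G) ∈ S₀ := Or.inr rfl
  have hTS₀ : T ⊆ S₀ := fun g hg => Or.inl (Or.inl hg)
  have hSS₀ : S ⊆ S₀ := fun g hg => Or.inl (Or.inr hg)
  have hfin : ∀ i : ℕ, (S₀ ^ i).Finite := by
    intro i
    induction i with
    | zero => rw [pow_zero]; exact Set.finite_one
    | succ i ih => rw [pow_succ]; exact ih.mul hS₀f
  have hsupp : ∀ i, SuppV fr (xs i) (S₀ ^ (i + 1)) := by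
    intro i
    induction i with
    | zero =>
      rw [xs0, zero_add, pow_one]
      exact hmono m x T S₀ hTS₀ hxT
    | succ i ih =>
      rw [xsS, pow_succ]
      exact hmono m _ _ _ (Set.mul_subset_mul_left hSS₀) (hηS _ _ ih)
  have hsuppσ : ∀ i, SuppV fr (xs i ᵥ* σ) (S₀ ^ (i + 2)) := by
    intro i
    rw [pow_succ]
    exact hmono k _ _ _ (Set.mul_subset_mul_left hSS₀) (hσS _ _ (hsupp i))
  -- the norm
  set r : ℝ := ∑ a, ‖x a‖ with hr
  have hr0 : 0 ≤ r := Finset.sum_nonneg (fun a _ => norm_nonneg _)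
  have hnorm : ∀ i, ∀ a, ‖xs i a‖ ≤ r * (1 / 2) ^ i := by
    intro i
    induction i with
    | zero =>
      intro a
      rw [xs0, pow_zero, mul_one]
      exact Finset.single_le_sum (f := fun a => ‖x a‖) (fun a _ => norm_nonneg _) (Finset.mem_univ a)
    | succ i ih =>
      intro a
      rw [xsS]
      calc ‖(xs i ᵥ* η) a‖ ≤ (r * (1 / 2) ^ i) / 2 := hηn _ _ ih a
        _ = r * (1 / 2) ^ (i + 1) := by rw [pow_succ]; ring
  have hnormσ : ∀ i, ∀ b, ‖(xs i ᵥ* σ) b‖ ≤ |c| * (r * (1 / 2) ^ i) := by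
    intro i b
    refine (hσn _ _ (hnorm i) b).trans ?_
    exact mul_le_mul_of_nonneg_right (le_abs_self c) (by positivity)
  -- growth
  obtain ⟨c₁, hc₁⟩ := hg S₀ hS₀f (3 / 2) (by norm_num)
  obtain ⟨c₂, hc₂⟩ := hg' S₀ hS₀f (3 / 2) (by norm_num)
  have hb1 : ∀ i j, ‖push fr K (xs i) j‖ ≤ (r * c₁ * (3 / 2)) * (3 / 4) ^ i := by
    intro i j
    refine (hnK (xs i) _ (hfin (i + 1)) (hsupp i) (r * (1 / 2) ^ i) (c₁ * (3 / 2) ^ (i + 1)) (by positivity)
      (hnorm i) (fun Q hQ => hc₁ (i + 1) Q hQ) j).trans (le_of_eq ?_)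
    rw [pow_succ, show (3 / 4 : ℝ) = 1 / 2 * (3 / 2) by norm_num, mul_pow]
    ring
  have hb2 : ∀ i j, ‖push fr K' (xs i ᵥ* σ) j‖ ≤ (|c| * r * c₂ * (9 / 4)) * (3 / 4) ^ i := by
    intro i j
    refine (hnK' (xs i ᵥ* σ) _ (hfin (i + 2)) (hsuppσ i) (|c| * (r * (1 / 2) ^ i)) (c₂ * (3 / 2) ^ (i + 2)) (by positivity)
      (hnormσ i) (fun Q hQ => hc₂ (i + 2) Q hQ) j).trans (le_of_eq ?_)
    rw [pow_add, show (3 / 4 : ℝ) = 1 / 2 * (3 / 2) by norm_num, mul_pow]
    ring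
  -- one step
  have hstep : ∀ i, push fr K (xs i) - push fr K (xs (i + 1)) = push fr K' (xs i ᵥ* σ) ᵥ* E.map fr.β := by
    intro i
    rw [← hsub (xs i) (xs (i + 1)) _ _ (hfin (i + 1)) (hfin (i + 1 + 1)) (hsupp i) (hsupp (i + 1))]
    have e1 : xs i - xs (i + 1) = (xs i ᵥ* σ) ᵥ* D.map fr.α := by
      rw [xsS]
      have e2 := (hcyc (xs i) (hcy i)).1
      exact sub_eq_of_eq_add e2
    rw [e1]
    exact h2 G C A B fr m k n n' K K' D E hK hK' hch (xs i ᵥ* σ) _ (hfin (i + 2)) (hsuppσ i)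
  have hsm : ∀ j, Summable (fun i => push fr K' (xs i ᵥ* σ) j) := by
    intro j
    refine Summable.of_norm_bounded ?_ (fun i => hb2 i j)
    exact (summable_geometric_of_lt_one (by norm_num) (by norm_num)).mul_left _
  refine ⟨fun j => ∑' i, push fr K' (xs i ᵥ* σ) j, ?_⟩
  funext j
  have hs1 : HasSum (fun i => (push fr K' (xs i ᵥ* σ) ᵥ* E.map fr.β) j)
      (((fun j => ∑' i, push fr K' (xs i ᵥ* σ) j) ᵥ* E.map fr.β) j) := by
    simp only [Matrix.vecMul, dotProduct]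
    exact hasSum_sum (fun a _ => (hsm a).hasSum.mul_right _)
  have ht1 := hs1.tendsto_sum_nat
  have ht2 : Tendsto (fun N => ∑ i ∈ Finset.range N, (push fr K' (xs i ᵥ* σ) ᵥ* E.map fr.β) j) atTop
      (𝓝 (push fr K x j - 0)) := by
    have e3 : ∀ N, ∑ i ∈ Finset.range N, (push fr K' (xs i ᵥ* σ) ᵥ* E.map fr.β) j =
        push fr K x j - push fr K (xs N) j := by
      intro N
      have e4 := Finset.sum_range_sub' (fun i => push fr K (xs i) j) N
      refine Eq.trans ?_ e4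
      apply Finset.sum_congr rfl
      intro i _
      rw [← hstep i]
      rfl
    simp only [e3]
    apply Tendsto.sub tendsto_const_nhds
    refine squeeze_zero_norm (fun N => hb1 N j) ?_
    rw [← mul_zero (r * c₁ * (3 / 2))]
    exact (tendsto_pow_atTop_nhds_zero_of_lt_one (by norm_num) (by norm_num)).const_mul _
  rw [sub_zero] at ht2
  exact tendsto_nhds_unique ht1 ht2

end Pool.Agent.V5helper6.ZM
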