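import Pool.Agent.V5helper87.ZM.Stm

/-!
# Project ZM (helper87): SUP
-/

set_option autoImplicit false

open scoped Matrix Pointwise

namespace Pool.Agent.V5helper6.ZM

open Pool.Agent.H919R4.ZS Pool.Agent.TH38.CX Pool.Agent.TH38.ZT
open Pool.Agent.V5helper87.ZM

theorem map_eq_lin {G M : Type} [AddCommGroup M] (φ : ZG G →+ M) (r : ZG G) :
    φ r = lin (fun h => φ (sg h)) r := by
  have h0 : φ = linHom (fun h => φ (sg h)) := by
    apply MonoidAlgebra.addMonoidHom_ext
    intro h m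
    rw [linHom_apply, lin_single, ← map_zsmul]
    congr 1
    simp [sg]
  conv_lhs => rw [h0]
  rfl

theorem lin_eq_zero {G M : Type} [AddCommGroup M] (f : G → M) (r : ZG G)
    (h : ∀ g ∈ r.coeff.support, f g = 0) : lin f r = 0 := by
  unfold lin Finsupp.sum
  exact Finset.sum_eq_zero (fun g hg => by simp only [h g hg, smul_zero])

theorem vecMul_map {A : Type} [NormedRing A] {R : Type} [Ring R] (α : R →+* A) {m n : ℕ}
    (x : Fin m → A) (D : Matrix (Fin m) (Fin n) R) (b : Fin n) :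
    (x ᵥ* D.map α) b = ∑ a, x a * α (D a b) := by
  simp [Matrix.vecMul, dotProduct]

theorem t_SUP : S_SUP := by
  intro G _ C A B _ _ fr
  refine ⟨?_, ?_, ?_⟩
  · intro m x T T' hT hx a g hg
    exact hx a g (fun s hs => hg s (hT hs))
  · intro m n D
    refine ⟨⋃ a, ⋃ b, ((D a b).coeff.support : Set G),
      Set.finite_iUnion fun a => Set.finite_iUnion fun b => Finset.finite_toSet _, ?_⟩
    intro x T hx b g hg
    rw [vecMul_map, Finset.sum_mul, map_sum]
    apply Finset.sum_eq_zero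
    intro a _
    let φ : ZG G →+ B := (fr.e.comp (AddMonoidHom.mulRight (fr.α (sg g⁻¹)))).comp
      ((AddMonoidHom.mulLeft (x a)).comp fr.α.toAddMonoidHom)
    have hφ : ∀ r, φ r = fr.e (x a * fr.α r * fr.α (sg g⁻¹)) := fun r => rfl
    rw [← hφ, map_eq_lin φ]
    apply lin_eq_zero
    intro h hh
    rw [hφ, mul_assoc, ← map_mul, sg_mul]
    have e2 : h * g⁻¹ = (g * h⁻¹)⁻¹ := by group
    rw [e2]
    apply hx a
    intro s hs
    have e3 : g * h⁻¹ * s⁻¹ = g * (s * h)⁻¹ := by group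
    rw [e3]
    exact hg _ (Set.mul_mem_mul hs (Set.mem_iUnion.2 ⟨a, Set.mem_iUnion.2 ⟨b, hh⟩⟩))
  · intro m n F z
    refine ⟨⋃ a, ⋃ b, ((F a b).coeff.support : Set G),
      Set.finite_iUnion fun a => Set.finite_iUnion fun b => Finset.finite_toSet _, ?_⟩
    intro b g hg
    rw [vecMul_map, Finset.sum_mul, map_sum]
    apply Finset.sum_eq_zero
    intro a _
    let φ : ZG G →+ B := (fr.e.comp (AddMonoidHom.mulRight (fr.α (sg g⁻¹)))).comp
      ((AddMonoidHom.mulLeft (fr.ψ (z a))).comp fr.α.toAddMonoidHom)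
    have hφ : ∀ r, φ r = fr.e (fr.ψ (z a) * fr.α r * fr.α (sg g⁻¹)) := fun r => rfl
    rw [← hφ, map_eq_lin φ]
    apply lin_eq_zero
    intro h hh
    rw [hφ, mul_assoc, ← map_mul, sg_mul, fr.e_ψ_mul, fr.e_not, mul_zero]
    intro hC
    refine hg h (Set.mem_iUnion.2 ⟨a, Set.mem_iUnion.2 ⟨b, hh⟩⟩) ?_
    have := C.inv_mem hC
    rwa [mul_inv_rev, inv_inv] at this

end Pool.Agent.V5helper6.ZM
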